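import Pool.Agent.LibArithPoly.FinalB
import Pool.Agent.LibArithPoly.Converse

/-!
# The Kontorovich-Nakamura conjecture on arithmetic polyhedra

The reflection group of a midscribed polyhedron is arithmetic if and only if it is commensurable with
`PSL₂(ℤ[√-d])` for some `d ∈ {1, 2, 6}`.
-/

namespace Pool.Agent.Results.MP_84cd0b_gt.ArithmeticPolyhedra

open ArithPolyhedra

theorem result {V F D : Type} [Fintype V] [Fintype F] [Fintype D]
    (P : MidscribedPolyhedron V F D) :
    IsArithmetic (reflectionGroup P) ↔
      ∃ d, (d = 1 ∨ d = 2 ∨ d = 6) ∧ WideCommensurable (reflectionGroup P) (PSL2Z d) := by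
  constructor
  · exact ArithPoly.conjecture P
  · rintro ⟨d, hd, h⟩
    exact ArithPoly.Converse.isArithmetic_of_wide d (by omega) _ h

end Pool.Agent.Results.MP_84cd0b_gt.ArithmeticPolyhedra
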